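import Pool.Agent.HAR.Stmts

/-!
# Squad HAR, row SPR: the linear form is spread
-/

namespace Pool.Agent.HAR.H77

open Finset Filter Topology

theorem lf_eq (top : TopStmt) {V ι : Type} [DecidableEq V] (c : Finset V → ι) {u t0 t : ℕ}
    {U : Finset V} {T : Finset (Finset V)} {θ : ℕ → ℝ} {x x' : ι → Bool} (hU : U.card = u)
    (ht2 : 2 ≤ t) (ht0 : t0 ≤ t) (htu : t < u) (hθ : ∀ r, t < r → θ r = 0)
    (hT : ∀ S ∈ T, S ⊆ U ∧ S.card = t)
    (hx : ∀ B : Finset V, B ⊆ U → B.card ≤ t → B ∉ T → 2 ≤ B.card → x (c B) = x' (c B))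
    (hx' : ∀ S ∈ T, x' (c S) = false) :
    lf c x U u t0 θ = lf c x' U u t0 θ + θ t * ((T.filter fun S => x (c S) = true).card : ℝ) := by
  obtain ⟨h1, h2⟩ := top V ι c U t T x x' ht2 (by omega) hT hx
  have h3 : (T.filter fun S => x' (c S) = true).card = 0 := by
    rw [Finset.card_eq_zero, Finset.filter_eq_empty_iff]
    intro S hS h
    rw [hx' S hS] at h
    exact Bool.false_ne_true h
  rw [h3, hU] at h2
  have h4 : (hh c x U (u + 1 - t) : ℝ) =
      hh c x' U (u + 1 - t) + ((T.filter fun S => x (c S) = true).card : ℝ) := by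
    have h5 : (hh c x U (u + 1 - t) : ℤ) =
        hh c x' U (u + 1 - t) + ((T.filter fun S => x (c S) = true).card : ℤ) := by
      push_cast at h2 ⊢
      linarith
    exact_mod_cast h5
  have htm : t ∈ Ico t0 u := Finset.mem_Ico.mpr ⟨ht0, htu⟩
  unfold lf
  rw [← Finset.add_sum_erase _ _ htm, ← Finset.add_sum_erase (Ico t0 u)
    (fun r => θ r * (hh c x' U (u + 1 - r) : ℝ)) htm, h4]
  have h6 : ∑ r ∈ (Ico t0 u).erase t, θ r * (hh c x U (u + 1 - r) : ℝ) =
      ∑ r ∈ (Ico t0 u).erase t, θ r * (hh c x' U (u + 1 - r) : ℝ) := by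
    refine Finset.sum_congr rfl fun r hr => ?_
    rw [Finset.mem_erase, Finset.mem_Ico] at hr
    rcases lt_or_gt_of_ne hr.1 with h | h
    · rw [h1 (u + 1 - r) (by omega)]
    · rw [hθ r h, zero_mul, zero_mul]
  rw [h6]
  ring

theorem spr (top : TopStmt) (con : ConStmt) (prd : PrdStmt) (ant : AntStmt) (prb : PrbStmt) :
    SprStmt := by
  intro V ι _ _ _ c K u t0 t U T θ M η hU ht2 ht0 htu hθ hM16 hη0 hη hM hT hS
  obtain ⟨-, -, -, heq, -, -⟩ := prb
  set D : Finset ι := Finset.univ.biUnion fun i => (T i).image c with hD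
  have hmem : ∀ i, ∀ S ∈ T i, c S ∈ D := fun i S hSi =>
    Finset.mem_biUnion.mpr ⟨i, Finset.mem_univ i, Finset.mem_image_of_mem c hSi⟩
  have hDo : ∀ d ∈ D, ∃ i, ∃ S ∈ T i, c S = d := by
    intro d hd
    obtain ⟨i, -, hi⟩ := Finset.mem_biUnion.mp hd
    obtain ⟨S, hSi, rfl⟩ := Finset.mem_image.mp hi
    exact ⟨i, S, hSi, rfl⟩
  let g : (Σ i, {S // S ∈ T i}) → {d // d ∈ D} := fun s => ⟨c s.2.1, hmem s.1 s.2.1 s.2.2⟩
  have hg : Function.Bijective g := by
    constructor
    · rintro ⟨i, S, hSi⟩ ⟨i', S', hSi'⟩ h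
      have h1 : c S = c S' := congrArg Subtype.val h
      obtain ⟨-, -, h2, -⟩ := hS i' S' hSi'
      have h3 : S = S' := h2 S h1
      subst h3
      obtain ⟨-, -, -, h4⟩ := hS i S hSi
      have h5 : i' = i := h4 i' (hS i' S hSi').1
      subst h5
      rfl
    · rintro ⟨d, hd⟩
      obtain ⟨i, S, hSi, rfl⟩ := hDo d hd
      exact ⟨⟨i, S, hSi⟩, rfl⟩
  let e : (Σ i, {S // S ∈ T i}) ≃ {d // d ∈ D} := Equiv.ofBijective g hg
  have he : ∀ i S (hSi : S ∈ T i), e.symm ⟨c S, hmem i S hSi⟩ = ⟨i, S, hSi⟩ := by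
    intro i S hSi
    rw [Equiv.symm_apply_eq]
    rfl
  refine con ι D (fun x => ∀ i, nd (lf c x (U i) u t0 θ) < η) ((3 / 4) ^ K) fun x₀ => ?_
  rw [← heq _ _ (e.arrowCongr (Equiv.refl Bool))]
  -- the function which is false on `D`
  set x' : ι → Bool := fun j => if j ∈ D then false else x₀ j with hx'
  have key : ∀ (z : (Σ i, {S // S ∈ T i}) → Bool) (i : Fin K),
      lf c (fun j => if h : j ∈ D then (e.arrowCongr (Equiv.refl Bool)) z ⟨j, h⟩ else x₀ j) (U i)
        u t0 θ = lf c x' (U i) u t0 θ +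
        θ t * ((univ.filter fun s : {S // S ∈ T i} => z ⟨i, s⟩ = true).card : ℝ) := by
    intro z i
    have h1 := lf_eq top c (x := fun j => if h : j ∈ D then
      (e.arrowCongr (Equiv.refl Bool)) z ⟨j, h⟩ else x₀ j) (x' := x') (T := T i) (θ := θ)
      (t0 := t0) (hU i) ht2 ht0 htu hθ (fun S hSi => ⟨(hS i S hSi).1, (hS i S hSi).2.1⟩) ?_ ?_
    · rw [h1]
      congr 3
      have h2 : (T i).filter (fun S => (fun j => if h : j ∈ D then
          (e.arrowCongr (Equiv.refl Bool)) z ⟨j, h⟩ else x₀ j) (c S) = true) =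
          (univ.filter fun s : {S // S ∈ T i} => z ⟨i, s⟩ = true).map
            (Function.Embedding.subtype _) := by
        ext S
        simp only [Finset.mem_filter, Finset.mem_map, Finset.mem_univ, true_and,
          Function.Embedding.coe_subtype, Subtype.exists, exists_and_right, exists_eq_right]
        constructor
        · rintro ⟨hSi, h3⟩
          refine ⟨hSi, ?_⟩
          rw [dif_pos (hmem i S hSi)] at h3
          have h4 : (e.arrowCongr (Equiv.refl Bool)) z ⟨c S, hmem i S hSi⟩ =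
            z (e.symm ⟨c S, hmem i S hSi⟩) := rfl
          rw [h4, he i S hSi] at h3
          exact h3
        · rintro ⟨hSi, h3⟩
          refine ⟨hSi, ?_⟩
          rw [dif_pos (hmem i S hSi)]
          have h4 : (e.arrowCongr (Equiv.refl Bool)) z ⟨c S, hmem i S hSi⟩ =
            z (e.symm ⟨c S, hmem i S hSi⟩) := rfl
          rw [h4, he i S hSi]
          exact h3
      rw [h2, Finset.card_map]
    · intro B hB _ hBT _
      have h3 : c B ∉ D := by
        intro hd
        obtain ⟨i', S, hSi', h4⟩ := hDo _ hd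
        obtain ⟨-, -, h5, h6⟩ := hS i' S hSi'
        have h7 : B = S := h5 B h4.symm
        subst h7
        have h8 : i = i' := h6 i hB
        subst h8
        exact hBT hSi'
      simp only [hx', dif_neg h3, if_neg h3]
    · intro S hSi
      simp only [hx', if_pos (hmem i S hSi)]
  let E : (i : Fin K) → ({S // S ∈ T i} → Bool) → Prop := fun i w =>
    nd (lf c x' (U i) u t0 θ + θ t * ((univ.filter fun s => w s = true).card : ℝ)) < η
  have hE : ∀ i, pr (E i) ≤ 3 / 4 := by
    intro i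
    refine ant {S // S ∈ T i} M η (θ t) (lf c x' (U i) u t0 θ) hM16 ?_ hη0 hη hM
    rw [Fintype.card_coe]
    exact hT i
  have hfin := prd K (fun i => {S // S ∈ T i}) E (3 / 4) hE
  refine le_trans (le_of_eq (congrArg pr (funext fun z => propext ?_))) hfin
  constructor
  · intro h i
    have h1 := h i
    rw [key z i] at h1
    exact h1
  · intro h i
    rw [key z i]
    exact h i

end Pool.Agent.HAR.H77
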